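import Mathlib
import Pool.Agent.K4H80.TSnarkData

/-!
Proof tools for the snark of girth six on 190 vertices with a spanning tree `T_6`.
-/

set_option autoImplicit false
set_option maxRecDepth 100000

namespace Pool.Agent.K4H80.TSnark

theorem beq_t (a b : ℕ) : Nat.beq a b = true ↔ a = b := ⟨Nat.eq_of_beq_eq_true, by
  rintro rfl; exact Nat.beq_refl a⟩

theorem beq_f (a b : ℕ) : Nat.beq a b = false ↔ a ≠ b := by
  rw [← Bool.not_eq_true, beq_t]

/-! ### local structure -/

theorem vspec (u : ℕ) (hu : u < 190) :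
    nb u = [g 0 u, g 1 u, g 2 u] ∧ cd u = [c 0 u, c 1 u, c 2 u] ∧
    g 0 u ≠ g 1 u ∧ g 0 u ≠ g 2 u ∧ g 1 u ≠ g 2 u ∧
    Nat.xor (Nat.xor (label (c 0 u)) (label (c 1 u))) (label (c 2 u)) = 0 ∧
    ∀ i < 3, g i u < 190 ∧ g i u ≠ u ∧ u ∈ nb (g i u) ∧ 1 ≤ c i u ∧ c i u ≤ 285 ∧
      fl (g i u) u = label (c i u) ∧
      ((fs (c i u) = u ∧ sn (c i u) = g i u) ∨ (fs (c i u) = g i u ∧ sn (c i u) = u)) := by
  have h := List.all_eq_true.1 vchk_all u (List.mem_range.2 hu)
  unfold vchk at h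
  simp only [Bool.and_eq_true, decide_eq_true_eq, Bool.not_eq_true', beq_t, beq_f,
    List.all_cons, List.all_nil, Bool.or_eq_true, List.contains_iff_mem, Nat.ble_eq,
    and_true] at h
  obtain ⟨⟨⟨⟨⟨⟨h1, h2⟩, h3⟩, h4⟩, h5⟩, h6⟩, h7, h8, h9⟩ := h
  refine ⟨h1, h2, h3, h4, h5, h6, ?_⟩
  intro i hi
  interval_cases i
  · obtain ⟨⟨⟨⟨⟨⟨a1, a2⟩, a3⟩, a4⟩, a5⟩, a6⟩, a7⟩ := h7
    exact ⟨by omega, a2, a3, a4, a5, a6, a7⟩
  · obtain ⟨⟨⟨⟨⟨⟨a1, a2⟩, a3⟩, a4⟩, a5⟩, a6⟩, a7⟩ := h8
    exact ⟨by omega, a2, a3, a4, a5, a6, a7⟩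
  · obtain ⟨⟨⟨⟨⟨⟨a1, a2⟩, a3⟩, a4⟩, a5⟩, a6⟩, a7⟩ := h9
    exact ⟨by omega, a2, a3, a4, a5, a6, a7⟩

theorem mem_nb {u v : ℕ} (hu : u < 190) : v ∈ nb u ↔ ∃ i < 3, v = g i u := by
  obtain ⟨h1, -⟩ := vspec u hu
  rw [h1]
  constructor
  · intro h
    simp only [List.mem_cons, List.not_mem_nil, or_false] at h
    rcases h with h | h | h
    · exact ⟨0, by omega, h⟩
    · exact ⟨1, by omega, h⟩
    · exact ⟨2, by omega, h⟩
  · rintro ⟨i, hi, rfl⟩
    interval_cases i <;> simp

theorem mem_cd {u k : ℕ} (hu : u < 190) : k ∈ cd u ↔ ∃ i < 3, k = c i u := by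
  obtain ⟨-, h1, -⟩ := vspec u hu
  rw [h1]
  constructor
  · intro h
    simp only [List.mem_cons, List.not_mem_nil, or_false] at h
    rcases h with h | h | h
    · exact ⟨0, by omega, h⟩
    · exact ⟨1, by omega, h⟩
    · exact ⟨2, by omega, h⟩
  · rintro ⟨i, hi, rfl⟩
    interval_cases i <;> simp

theorem g_inj {u i j : ℕ} (hu : u < 190) (hi : i < 3) (hj : j < 3) (h : g i u = g j u) :
    i = j := by
  obtain ⟨-, -, h1, h2, h3, -⟩ := vspec u hu
  interval_cases i <;> interval_cases j <;> simp_all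

theorem fl_g {u i : ℕ} (hu : u < 190) (hi : i < 3) : fl u (g i u) = label (c i u) := by
  obtain ⟨-, -, h1, h2, h3, -⟩ := vspec u hu
  unfold fl
  interval_cases i
  · rw [(beq_t _ _).2 rfl]; rfl
  · rw [(beq_f _ _).2 h1.symm, (beq_t _ _).2 rfl]; rfl
  · rw [(beq_f _ _).2 h2.symm, (beq_f _ _).2 h3.symm, (beq_t _ _).2 rfl]; rfl

/-- the graph -/
def G : SimpleGraph (Fin 190) where
  Adj u v := v.val ∈ nb u.val
  symm := ⟨fun u v h => by
    obtain ⟨i, hi, h⟩ := (mem_nb u.2).1 h
    obtain ⟨-, -, -, -, -, -, h7⟩ := vspec u u.2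
    rw [h]
    exact (h7 i hi).2.2.1⟩
  loopless := ⟨fun u h => by
    obtain ⟨i, hi, h⟩ := (mem_nb u.2).1 h
    obtain ⟨-, -, -, -, -, -, h7⟩ := vspec u u.2
    exact (h7 i hi).2.1 h.symm⟩

theorem adj_iff {u v : Fin 190} : G.Adj u v ↔ ∃ i < 3, v.val = g i u.val := mem_nb u.2

/-- the `i`-th neighbour -/
def nbr (u : Fin 190) (i : ℕ) (hi : i < 3) : Fin 190 :=
  ⟨g i u.val, ((vspec u u.2).2.2.2.2.2.2 i hi).1⟩

theorem adj_nbr (u : Fin 190) (i : ℕ) (hi : i < 3) : G.Adj u (nbr u i hi) :=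
  adj_iff.2 ⟨i, hi, rfl⟩

theorem neighborSet_eq (u : Fin 190) :
    G.neighborSet u = {nbr u 0 (by omega), nbr u 1 (by omega), nbr u 2 (by omega)} := by
  ext v
  rw [SimpleGraph.mem_neighborSet, adj_iff]
  simp only [Set.mem_insert_iff, Set.mem_singleton_iff, Fin.ext_iff, nbr]
  constructor
  · rintro ⟨i, hi, h⟩
    interval_cases i <;> simp [h]
  · rintro (h | h | h)
    · exact ⟨0, by omega, h⟩
    · exact ⟨1, by omega, h⟩
    · exact ⟨2, by omega, h⟩

theorem ncard_neighborSet (u : Fin 190) : (G.neighborSet u).ncard = 3 := by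
  rw [neighborSet_eq, Set.ncard_eq_three]
  obtain ⟨-, -, h1, h2, h3, -⟩ := vspec u u.2
  refine ⟨_, _, _, ?_, ?_, ?_, rfl⟩
  · intro h; exact h1 (Fin.ext_iff.1 h)
  · intro h; exact h2 (Fin.ext_iff.1 h)
  · intro h; exact h3 (Fin.ext_iff.1 h)

/-! ### girth -/

theorem no_short {v0 : ℕ} (h0 : v0 < 190) : short5 v0 = true :=
  List.all_eq_true.1 short5_all v0 (List.mem_range.2 h0)

theorem six_le (a : Fin 190) (w : G.Walk a a) (hw : w.IsCycle) : 6 ≤ w.length := by
  by_contra hlt
  push Not at hlt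
  have h3 := hw.three_le_length
  have hnd := hw.support_nodup
  have hs := no_short a.2
  unfold short5 at hs
  cases w with
  | nil => simp at h3
  | @cons _ v1 _ e1 w =>
  cases w with
  | nil => simp at h3
  | @cons _ v2 _ e2 w =>
  cases w with
  | nil => simp at h3
  | @cons _ v3 _ e3 w =>
  have hs1 := List.all_eq_true.1 hs v1.val e1
  have hs2 := List.all_eq_true.1 hs1 v2.val e2
  rw [Bool.or_eq_true, beq_t] at hs2
  cases w with
  | nil =>
    simp only [SimpleGraph.Walk.support_cons, SimpleGraph.Walk.support_nil, List.tail_cons,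
      List.nodup_cons, List.mem_cons, List.not_mem_nil, or_false, not_or] at hnd
    rcases hs2 with hs2 | hs2
    · exact hnd.2.1 (Fin.ext hs2)
    · have hs3 := List.all_eq_true.1 hs2 a.val e3
      rw [Bool.or_eq_true, Bool.and_eq_true, beq_t, Bool.not_eq_true', beq_f] at hs3
      rcases hs3 with hs3 | hs3
      · exact hnd.1.2 (Fin.ext hs3.symm)
      · exact hs3.1 rfl
  | @cons _ v4 _ e4 w =>
  cases w with
  | nil =>
    simp only [SimpleGraph.Walk.support_cons, SimpleGraph.Walk.support_nil, List.tail_cons,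
      List.nodup_cons, List.mem_cons, List.not_mem_nil, or_false, not_or] at hnd
    obtain ⟨⟨n12, n13, n1a⟩, ⟨n23, n2a⟩, n3a, -⟩ := hnd
    rcases hs2 with hs2 | hs2
    · exact n2a (Fin.ext hs2)
    · have hs3 := List.all_eq_true.1 hs2 v3.val e3
      rw [Bool.or_eq_true, Bool.and_eq_true, beq_t, Bool.not_eq_true', beq_f] at hs3
      rcases hs3 with hs3 | hs3
      · exact n13 (Fin.ext hs3.symm)
      · have hs4 := List.all_eq_true.1 hs3.2 a.val e4
        rw [Bool.or_eq_true, Bool.and_eq_true, beq_t, Bool.not_eq_true', beq_f] at hs4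
        rcases hs4 with hs4 | hs4
        · exact n2a (Fin.ext hs4.symm)
        · exact hs4.1 rfl
  | @cons _ v5 _ e5 w =>
  cases w with
  | nil =>
    simp only [SimpleGraph.Walk.support_cons, SimpleGraph.Walk.support_nil, List.tail_cons,
      List.nodup_cons, List.mem_cons, List.not_mem_nil, or_false, not_or] at hnd
    obtain ⟨⟨n12, n13, n14, n1a⟩, ⟨n23, n24, n2a⟩, ⟨n34, n3a⟩, n4a, -⟩ := hnd
    rcases hs2 with hs2 | hs2
    · exact n2a (Fin.ext hs2)
    · have hs3 := List.all_eq_true.1 hs2 v3.val e3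
      rw [Bool.or_eq_true, Bool.and_eq_true, beq_t, Bool.not_eq_true', beq_f] at hs3
      rcases hs3 with hs3 | hs3
      · exact n13 (Fin.ext hs3.symm)
      · have hs4 := List.all_eq_true.1 hs3.2 v4.val e4
        rw [Bool.or_eq_true, Bool.and_eq_true, beq_t, Bool.not_eq_true', beq_f] at hs4
        rcases hs4 with hs4 | hs4
        · exact n24 (Fin.ext hs4.symm)
        · have hs5 := List.all_eq_true.1 hs4.2 a.val e5
          rw [Bool.or_eq_true, beq_t, Bool.not_eq_true', beq_f] at hs5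
          rcases hs5 with hs5 | hs5
          · exact n3a (Fin.ext hs5.symm)
          · exact hs5 rfl
  | cons e6 w =>
    simp only [SimpleGraph.Walk.length_cons] at hlt
    omega

theorem adj_dec (a b : ℕ) (ha : a < 190) (hb : b < 190) (h : (nb a).contains b = true) :
    G.Adj ⟨a, ha⟩ ⟨b, hb⟩ := List.contains_iff_mem.1 h

/-- an explicit cycle of length six -/
def cyc6 : G.Walk (⟨101, by omega⟩ : Fin 190) ⟨101, by omega⟩ :=
  .cons (adj_dec 101 137 _ (by omega) (by decide +kernel)) <|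
  .cons (adj_dec 137 127 _ (by omega) (by decide +kernel)) <|
  .cons (adj_dec 127 135 _ (by omega) (by decide +kernel)) <|
  .cons (adj_dec 135 109 _ (by omega) (by decide +kernel)) <|
  .cons (adj_dec 109 95 _ (by omega) (by decide +kernel)) <|
  .cons (adj_dec 95 101 _ (by omega) (by decide +kernel)) .nil

theorem cyc6_isCycle : cyc6.IsCycle := by
  rw [SimpleGraph.Walk.isCycle_def, SimpleGraph.Walk.isTrail_def]
  unfold cyc6
  refine ⟨?_, ?_, ?_⟩
  · simp [SimpleGraph.Walk.edges_cons]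
  · simp
  · simp

theorem girth_ge : 6 ≤ G.girth := by
  obtain ⟨a, w, hw, h⟩ := SimpleGraph.exists_girth_eq_length.2
    (fun h : G.IsAcyclic => h cyc6 cyc6_isCycle)
  rw [h]
  exact six_le a w hw

/-! ### the tree -/

/-- the tree `T_6` -/
def T : SimpleGraph (Fin 190) where
  Adj u v := (v.val ≠ 0 ∧ par v.val = u.val) ∨ (u.val ≠ 0 ∧ par u.val = v.val)
  symm := ⟨fun _ _ h => h.symm⟩
  loopless := ⟨fun u h => by unfold par at h; omega⟩

theorem par_mem : ∀ u < 190, 1 ≤ u → par u ∈ nb u := by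
  intro u hu h1
  unfold nb
  rw [(beq_f u 0).2 (by omega)]
  cases Nat.ble u 93 <;> simp

theorem T_le : T ≤ G := by
  intro u v h
  rcases h with ⟨h0, h⟩ | ⟨h0, h⟩
  · apply SimpleGraph.Adj.symm
    show u.val ∈ nb v.val
    rw [← h]
    exact par_mem v v.2 (by omega)
  · show v.val ∈ nb u.val
    rw [← h]
    exact par_mem u u.2 (by omega)

/-- the depth in the tree -/
def depth (v : ℕ) : ℕ := Nat.log2 ((v + 2) / 3) + (if v = 0 then 0 else 1)

theorem depth_par : ∀ v < 190, v ≠ 0 → depth v = depth (par v) + 1 := by decide +kernel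

theorem depth_leaf : ∀ v < 190, 94 ≤ v → depth v = 6 := by decide +kernel

theorem par_lt {v : ℕ} (h : v ≠ 0) : par v < v := by unfold par; omega

/-- the root -/
def root : Fin 190 := ⟨0, by omega⟩

/-- a walk from the root -/
theorem exists_walk (n : ℕ) : ∀ (v : Fin 190), v.val = n →
    ∃ w : T.Walk root v, w.length = depth n := by
  induction n using Nat.strong_induction_on with
  | _ n ih =>
    intro v hv
    by_cases h0 : n = 0
    · subst h0
      have : v = root := Fin.ext hv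
      subst this
      exact ⟨.nil, by decide⟩
    · have hlt := par_lt h0
      have hv2 := v.2
      obtain ⟨w, hw⟩ := ih (par n) hlt ⟨par n, by omega⟩ rfl
      have hadj : T.Adj (⟨par n, by omega⟩ : Fin 190) v := Or.inl ⟨by omega, by rw [hv]⟩
      refine ⟨w.concat hadj, ?_⟩
      rw [SimpleGraph.Walk.length_concat, hw, depth_par n (by omega) h0]

theorem T_connected : T.Connected := by
  have : Nonempty (Fin 190) := ⟨⟨0, by omega⟩⟩
  refine ⟨fun u v => ?_⟩
  obtain ⟨w, -⟩ := exists_walk _ u rfl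
  obtain ⟨w', -⟩ := exists_walk _ v rfl
  exact ⟨w.reverse.append w'⟩

theorem T_isTree : T.IsTree := by
  rw [SimpleGraph.isTree_iff_connected_and_card]
  refine ⟨T_connected, ?_⟩
  have h1 := T_connected.card_vert_le_card_edgeSet_add_one
  have h2 : Nat.card T.edgeSet ≤ 189 := by
    have hf : ∀ e : T.edgeSet, ∃ i : Fin 189, (e : Sym2 (Fin 190)) =
        s(⟨i.val + 1, by omega⟩, ⟨par (i.val + 1), by
          have := @par_lt (i.val + 1) (by omega); omega⟩) := by
      rintro ⟨e, he⟩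
      induction e using Sym2.ind with
      | _ u v =>
        have he' : T.Adj u v := he
        rcases he' with ⟨h0, h⟩ | ⟨h0, h⟩
        · refine ⟨⟨v.val - 1, by omega⟩, ?_⟩
          have hv : v.val - 1 + 1 = v.val := by omega
          show s(u, v) = s(_, _)
          rw [Sym2.eq_iff]
          simp only [Fin.ext_iff, hv]
          exact Or.inr ⟨h.symm, trivial⟩
        · refine ⟨⟨u.val - 1, by omega⟩, ?_⟩
          have hv : u.val - 1 + 1 = u.val := by omega
          show s(u, v) = s(_, _)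
          rw [Sym2.eq_iff]
          simp only [Fin.ext_iff, hv]
          exact Or.inl ⟨trivial, h.symm⟩
    choose f hf using hf
    have hinj : Function.Injective f := by
      intro e e' h
      apply Subtype.ext
      rw [hf e, hf e', h]
    have := Nat.card_le_card_of_injective f hinj
    simpa using this
  rw [Nat.card_eq_fintype_card (α := Fin 190), Fintype.card_fin] at h1 ⊢
  omega

theorem depth_le_length {u v : Fin 190} (w : T.Walk u v) : depth v.val ≤ depth u.val + w.length := by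
  induction w with
  | nil => simp
  | @cons a b c h w ih =>
    rw [SimpleGraph.Walk.length_cons]
    have : depth b.val ≤ depth a.val + 1 := by
      rcases h with ⟨h0, h⟩ | ⟨h0, h⟩
      · rw [depth_par b b.2 h0, h]
      · rw [depth_par a a.2 h0, h]; omega
    omega

theorem dist_root (v : Fin 190) : T.dist root v = depth v.val := by
  apply le_antisymm
  · obtain ⟨w, hw⟩ := exists_walk _ v rfl
    rw [← hw]
    exact SimpleGraph.dist_le w
  · obtain ⟨w, hw⟩ := T_connected.exists_walk_length_eq_dist root v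
    rw [← hw]
    have := depth_le_length w
    have h0 : depth root.val = 0 := by decide
    omega

theorem T_neighbor_root : (T.neighborSet root).ncard = 3 := by
  have : T.neighborSet root =
      {⟨1, by omega⟩, ⟨2, by omega⟩, ⟨3, by omega⟩} := by
    ext v
    rw [SimpleGraph.mem_neighborSet]
    simp only [Set.mem_insert_iff, Set.mem_singleton_iff, Fin.ext_iff, T, par, root]
    omega
  rw [this, Set.ncard_eq_three]
  refine ⟨_, _, _, ?_, ?_, ?_, rfl⟩ <;> simp

theorem T_neighbor_leaf (v : Fin 190) (h : 94 ≤ v.val) : (T.neighborSet v).ncard = 1 := by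
  have : T.neighborSet v = {⟨par v.val, by unfold par; omega⟩} := by
    ext w
    rw [SimpleGraph.mem_neighborSet]
    simp only [Set.mem_singleton_iff, Fin.ext_iff, T, par]
    omega
  rw [this, Set.ncard_singleton]

theorem T_neighbor_mid (v : Fin 190) (h : v.val < 94) (h0 : v.val ≠ 0) :
    (T.neighborSet v).ncard = 3 := by
  have : T.neighborSet v = {⟨par v.val, by unfold par; omega⟩, ⟨2 * v.val + 2, by omega⟩,
      ⟨2 * v.val + 3, by omega⟩} := by
    ext w
    rw [SimpleGraph.mem_neighborSet]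
    simp only [Set.mem_insert_iff, Set.mem_singleton_iff, Fin.ext_iff, T, par]
    omega
  rw [this, Set.ncard_eq_three]
  refine ⟨_, _, _, ?_, ?_, ?_, rfl⟩
  · simp only [ne_eq, Fin.ext_iff, par]; omega
  · simp only [ne_eq, Fin.ext_iff, par]; omega
  · simp only [ne_eq, Fin.ext_iff]; omega

theorem G_connected : G.Connected := T_connected.mono T_le

/-! ### colourings -/

/-- three different colours among `1, 2, 3` -/
def Good (a b c : ℕ) : Prop :=
  (a = 1 ∨ a = 2 ∨ a = 3) ∧ (b = 1 ∨ b = 2 ∨ b = 3) ∧ (c = 1 ∨ c = 2 ∨ c = 3) ∧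
    a ≠ b ∧ a ≠ c ∧ b ≠ c

theorem Good.xor {a b c : ℕ} (h : Good a b c) : a ^^^ b ^^^ c = 0 := by
  obtain ⟨ha, hb, hc, h1, h2, h3⟩ := h
  rcases ha with rfl | rfl | rfl <;> rcases hb with rfl | rfl | rfl <;>
    rcases hc with rfl | rfl | rfl <;> first | rfl | omega

theorem good_of_xor {a b c : ℕ} (ha : a = 1 ∨ a = 2 ∨ a = 3) (hb : b = 1 ∨ b = 2 ∨ b = 3)
    (hc : c = 1 ∨ c = 2 ∨ c = 3) (h : a ^^^ b ^^^ c = 0) : Good a b c := by
  rcases ha with rfl | rfl | rfl <;> rcases hb with rfl | rfl | rfl <;>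
    rcases hc with rfl | rfl | rfl <;> first | (exact absurd h (by decide)) | (unfold Good; omega)

theorem testBit_or_pow (A e x : ℕ) : (A ||| 2 ^ e).testBit x = (A.testBit x || decide (e = x)) := by
  rw [Nat.testBit_or, Nat.testBit_two_pow]

theorem unsat_sound (col : ℕ → ℕ) : ∀ (L : List (ℕ × ℕ × ℕ)) (A B C : ℕ), unsat L A B C = true →
    (∀ t ∈ L, Good (col t.1) (col t.2.1) (col t.2.2)) →
    (∀ e, A.testBit e = true → col e = 1) → (∀ e, B.testBit e = true → col e = 2) →
    (∀ e, C.testBit e = true → col e = 3) → False := by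
  intro L
  induction L with
  | nil => intro A B C h; simp [unsat] at h
  | cons t L ih =>
    obtain ⟨e, f, g⟩ := t
    intro A B C h hL hA hB hC
    have hg : Good (col e) (col f) (col g) := hL (e, f, g) (by simp)
    have hL' : ∀ t ∈ L, Good (col t.1) (col t.2.1) (col t.2.2) :=
      fun t ht => hL t (List.mem_cons_of_mem _ ht)
    have free1 : ∀ x, col x = 1 → free B C x = true := by
      intro x hx
      unfold free
      rw [Bool.and_eq_true, Bool.not_eq_true', Bool.not_eq_true']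
      constructor
      · rw [← Bool.not_eq_true]; intro h; rw [hB x h] at hx; omega
      · rw [← Bool.not_eq_true]; intro h; rw [hC x h] at hx; omega
    have free2 : ∀ x, col x = 2 → free A C x = true := by
      intro x hx
      unfold free
      rw [Bool.and_eq_true, Bool.not_eq_true', Bool.not_eq_true']
      constructor
      · rw [← Bool.not_eq_true]; intro h; rw [hA x h] at hx; omega
      · rw [← Bool.not_eq_true]; intro h; rw [hC x h] at hx; omega
    have free3 : ∀ x, col x = 3 → free A B x = true := by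
      intro x hx
      unfold free
      rw [Bool.and_eq_true, Bool.not_eq_true', Bool.not_eq_true']
      constructor
      · rw [← Bool.not_eq_true]; intro h; rw [hA x h] at hx; omega
      · rw [← Bool.not_eq_true]; intro h; rw [hB x h] at hx; omega
    have key : ∀ x y z : ℕ, col x = 1 → col y = 2 → col z = 3 →
        (!(free B C x && free A C y && free A B z) ||
          unsat L (A ||| 2 ^ x) (B ||| 2 ^ y) (C ||| 2 ^ z)) = true → False := by
      intro x y z hx hy hz hu
      rw [free1 x hx, free2 y hy, free3 z hz] at hu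
      simp only [Bool.and_self, Bool.not_true, Bool.false_or] at hu
      refine ih _ _ _ hu hL' ?_ ?_ ?_
      · intro w hw
        rw [testBit_or_pow, Bool.or_eq_true, decide_eq_true_eq] at hw
        rcases hw with hw | rfl
        · exact hA w hw
        · exact hx
      · intro w hw
        rw [testBit_or_pow, Bool.or_eq_true, decide_eq_true_eq] at hw
        rcases hw with hw | rfl
        · exact hB w hw
        · exact hy
      · intro w hw
        rw [testBit_or_pow, Bool.or_eq_true, decide_eq_true_eq] at hw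
        rcases hw with hw | rfl
        · exact hC w hw
        · exact hz
    unfold unsat at h
    rw [Bool.and_eq_true, Bool.and_eq_true, Bool.and_eq_true, Bool.and_eq_true,
      Bool.and_eq_true] at h
    obtain ⟨⟨⟨⟨⟨h1, h2⟩, h3⟩, h4⟩, h5⟩, h6⟩ := h
    obtain ⟨ha, hb, hc, n1, n2, n3⟩ := hg
    rcases ha with ha | ha | ha <;> rcases hb with hb | hb | hb <;>
      rcases hc with hc | hc | hc <;> first
      | omega
      | exact key e f g ha hb hc h1
      | exact key e g f ha hc hb h2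
      | exact key f e g hb ha hc h3
      | exact key f g e hb hc ha h4
      | exact key g e f hc ha hb h5
      | exact key g f e hc hb ha h6

/-- the sum of the colours -/
def X (col : ℕ → ℕ) : List ℕ → ℕ
  | [] => 0
  | a :: l => col a ^^^ X col l

theorem X_append (col : ℕ → ℕ) (l l' : List ℕ) : X col (l ++ l') = X col l ^^^ X col l' := by
  induction l with
  | nil => simp [X]
  | cons a l ih => simp only [List.cons_append, X, ih, Nat.xor_assoc]

theorem X_double (col : ℕ → ℕ) (l : List ℕ) : X col (l ++ l) = 0 := by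
  rw [X_append, Nat.xor_self]

theorem X_perm (col : ℕ → ℕ) {l l' : List ℕ} (h : l.Perm l') : X col l = X col l' := by
  induction h with
  | nil => rfl
  | cons a _ ih => simp only [X, ih]
  | swap a b l =>
    simp only [X]
    rw [← Nat.xor_assoc, ← Nat.xor_assoc, Nat.xor_comm (col b) (col a)]
  | trans _ _ ih1 ih2 => rw [ih1, ih2]

theorem X_flat (col : ℕ → ℕ) : ∀ L : List (ℕ × ℕ × ℕ),
    (∀ t ∈ L, Good (col t.1) (col t.2.1) (col t.2.2)) → X col (flat L) = 0 := by
  intro L
  induction L with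
  | nil => intro _; rfl
  | cons t L ih =>
    obtain ⟨a, b, c⟩ := t
    intro h
    have h1 : Good (col a) (col b) (col c) := h (a, b, c) (by simp)
    have h2 := ih (fun t ht => h t (List.mem_cons_of_mem _ ht))
    simp only [flat, X, h2, Nat.xor_zero]
    have := h1.xor
    rw [← Nat.xor_assoc]
    exact this

/-- the flow through a superedge is not zero and is the same at its two ends -/
theorem superedge (col : ℕ → ℕ) (L : List (ℕ × ℕ × ℕ)) (a b c : ℕ) (v d : List ℕ)
    (hL : ∀ t ∈ L, Good (col t.1) (col t.2.1) (col t.2.2))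
    (ha : col a = 1 ∨ col a = 2 ∨ col a = 3) (hb : col b = 1 ∨ col b = 2 ∨ col b = 3)
    (hc : col c = 1 ∨ col c = 2 ∨ col c = 3)
    (hu : unsat ((a, b, c) :: L) 0 0 0 = true)
    (hp : (flat L).Perm ([a, b, c] ++ (v ++ (d ++ d)))) :
    X col [a, b, c] ≠ 0 ∧ X col v = X col [a, b, c] := by
  constructor
  · intro h
    have hg : Good (col a) (col b) (col c) := by
      apply good_of_xor ha hb hc
      simpa [X, Nat.xor_assoc] using h
    refine unsat_sound col _ 0 0 0 hu ?_ (by simp) (by simp) (by simp)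
    intro t ht
    rw [List.mem_cons] at ht
    rcases ht with rfl | ht
    · exact hg
    · exact hL t ht
  · have h1 := X_perm col hp
    rw [X_flat col L hL, X_append, X_append, X_double, Nat.xor_zero] at h1
    exact (Nat.xor_eq_zero_iff.1 h1.symm).symm

theorem supervertex (col : ℕ → ℕ) (L : List (ℕ × ℕ × ℕ)) (t : ℕ) (u v d : List ℕ)
    (hL : ∀ t ∈ L, Good (col t.1) (col t.2.1) (col t.2.2))
    (hp : (flat L).Perm ([t] ++ (u ++ (v ++ (d ++ d))))) :
    col t = X col u ^^^ X col v := by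
  have h1 := X_perm col hp
  rw [X_flat col L hL, X_append, X_append, X_append, X_double, Nat.xor_zero] at h1
  have h2 := (Nat.xor_eq_zero_iff.1 h1.symm)
  simpa [X] using h2

theorem lt_four_of {a : ℕ} (h : a = 1 ∨ a = 2 ∨ a = 3) : a < 4 := by omega

theorem X3_lt (col : ℕ → ℕ) (a b c : ℕ) (ha : col a = 1 ∨ col a = 2 ∨ col a = 3)
    (hb : col b = 1 ∨ col b = 2 ∨ col b = 3) (hc : col c = 1 ∨ col c = 2 ∨ col c = 3) :
    X col [a, b, c] < 4 := by
  simp only [X, Nat.xor_zero]
  have h2 : (4 : ℕ) = 2 ^ 2 := by norm_num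
  rw [h2]
  exact Nat.xor_lt_two_pow (by omega) (Nat.xor_lt_two_pow (by omega) (by omega))

def pet (s0 s1 s2 s3 s4 s5 : ℕ) : Bool :=
  Nat.beq s0 0 || Nat.beq s1 0 || Nat.beq s2 0 || Nat.beq s3 0 || Nat.beq s4 0 || Nat.beq s5 0 ||
  Nat.beq (s0 ^^^ s5) 0 || Nat.beq (s1 ^^^ s0) 0 || Nat.beq (s2 ^^^ s1) 0 ||
  Nat.beq (s3 ^^^ s2) 0 || Nat.beq (s4 ^^^ s3) 0 || Nat.beq (s5 ^^^ s4) 0 ||
  Nat.beq ((s0 ^^^ s5) ^^^ (s3 ^^^ s2)) 0 || Nat.beq ((s1 ^^^ s0) ^^^ (s4 ^^^ s3)) 0 ||
  Nat.beq ((s2 ^^^ s1) ^^^ (s5 ^^^ s4)) 0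

theorem pet_all : (List.range 4).all (fun s0 => (List.range 4).all (fun s1 =>
    (List.range 4).all (fun s2 => (List.range 4).all (fun s3 => (List.range 4).all (fun s4 =>
      (List.range 4).all (fun s5 => pet s0 s1 s2 s3 s4 s5)))))) = true := by decide +kernel

/-- the Petersen graph has no colouring -/
theorem petersen (s0 : ℕ) (h0 : s0 < 4) (s1 : ℕ) (h1 : s1 < 4) (s2 : ℕ) (h2 : s2 < 4)
    (s3 : ℕ) (h3 : s3 < 4) (s4 : ℕ) (h4 : s4 < 4) (s5 : ℕ) (h5 : s5 < 4) :
    ¬ (s0 ≠ 0 ∧ s1 ≠ 0 ∧ s2 ≠ 0 ∧ s3 ≠ 0 ∧ s4 ≠ 0 ∧ s5 ≠ 0 ∧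
    s0 ^^^ s5 ≠ 0 ∧ s1 ^^^ s0 ≠ 0 ∧ s2 ^^^ s1 ≠ 0 ∧ s3 ^^^ s2 ≠ 0 ∧ s4 ^^^ s3 ≠ 0 ∧
    s5 ^^^ s4 ≠ 0 ∧ (s0 ^^^ s5) ^^^ (s3 ^^^ s2) ≠ 0 ∧ (s1 ^^^ s0) ^^^ (s4 ^^^ s3) ≠ 0 ∧
    (s2 ^^^ s1) ^^^ (s5 ^^^ s4) ≠ 0) := by
  have h := List.all_eq_true.1 (List.all_eq_true.1 (List.all_eq_true.1 (List.all_eq_true.1
    (List.all_eq_true.1 (List.all_eq_true.1 pet_all s0 (List.mem_range.2 h0)) s1
    (List.mem_range.2 h1)) s2 (List.mem_range.2 h2)) s3 (List.mem_range.2 h3)) s4
    (List.mem_range.2 h4)) s5 (List.mem_range.2 h5)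
  unfold pet at h
  simp only [Bool.or_eq_true, beq_t] at h
  tauto

theorem no_col (col : ℕ → ℕ)
    (hg : ∀ u < 190, Good (col (c 0 u)) (col (c 1 u)) (col (c 2 u))) : False := by
  have hL : ∀ t ∈ (se0 ++ se1 ++ se2 ++ se3 ++ se4 ++ se5 ++ sv0 ++ sv1 ++ sv2 ++ sv3 ++ sv4 ++
      sv5), Good (col t.1) (col t.2.1) (col t.2.2) := by
    intro t ht
    have h := List.all_eq_true.1 tchk_all t ht
    unfold tchk at h
    rw [Bool.and_eq_true, decide_eq_true_eq, Nat.ble_eq] at h
    have h190 : t.1 < 190 := by omega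
    have h1 := (vspec t.1 h190).2.1
    rw [h1] at h
    have h2 := hg t.1 h190
    have h3 := h.1
    simp only [List.cons.injEq, and_true] at h3
    have e0 : col t.1 = col (c 0 t.1) := congrArg col h3.1.symm
    have e1 : col t.2.1 = col (c 1 t.1) := congrArg col h3.2.1.symm
    have e2 : col t.2.2 = col (c 2 t.1) := congrArg col h3.2.2.symm
    rw [e0, e1, e2]
    exact h2
  have hc : ∀ k, 1 ≤ k → k ≤ 189 → col k = 1 ∨ col k = 2 ∨ col k = 3 := by
    intro k h1 h2
    have h := hg k (by omega)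
    have hk : k ∈ cd k := by
      unfold cd
      rw [(beq_f k 0).2 (by omega)]
      cases Nat.ble k 93 <;> simp
    rw [mem_cd (by omega)] at hk
    obtain ⟨i, hi, hk⟩ := hk
    obtain ⟨ha, hb, hc, -⟩ := h
    interval_cases i
    · rw [← hk] at ha; exact ha
    · rw [← hk] at hb; exact hb
    · rw [← hk] at hc; exact hc
  obtain ⟨p0, q0⟩ := superedge col se0 23 25 46 [66, 67, 62] de0 (fun t ht => hL t (by simp [ht]))
    (hc 23 (by omega) (by omega)) (hc 25 (by omega) (by omega)) (hc 46 (by omega) (by omega)) unsat0 perm_se0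
  obtain ⟨p1, q1⟩ := superedge col se1 31 33 63 [82, 83, 78] de1 (fun t ht => hL t (by simp [ht]))
    (hc 31 (by omega) (by omega)) (hc 33 (by omega) (by omega)) (hc 63 (by omega) (by omega)) unsat1 perm_se1
  obtain ⟨p2, q2⟩ := superedge col se2 39 41 79 [58, 59, 54] de2 (fun t ht => hL t (by simp [ht]))
    (hc 39 (by omega) (by omega)) (hc 41 (by omega) (by omega)) (hc 79 (by omega) (by omega)) unsat2 perm_se2
  obtain ⟨p3, q3⟩ := superedge col se3 27 29 55 [74, 75, 70] de3 (fun t ht => hL t (by simp [ht]))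
    (hc 27 (by omega) (by omega)) (hc 29 (by omega) (by omega)) (hc 55 (by omega) (by omega)) unsat3 perm_se3
  obtain ⟨p4, q4⟩ := superedge col se4 35 37 71 [90, 91, 86] de4 (fun t ht => hL t (by simp [ht]))
    (hc 35 (by omega) (by omega)) (hc 37 (by omega) (by omega)) (hc 71 (by omega) (by omega)) unsat4 perm_se4
  obtain ⟨p5, q5⟩ := superedge col se5 43 45 87 [50, 51, 47] de5 (fun t ht => hL t (by simp [ht]))
    (hc 43 (by omega) (by omega)) (hc 45 (by omega) (by omega)) (hc 87 (by omega) (by omega)) unsat5 perm_se5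
  have r0 := supervertex col sv0 4 [23, 25, 46] [50, 51, 47] dv0 (fun t ht => hL t (by simp [ht])) perm_sv0
  have r1 := supervertex col sv1 6 [31, 33, 63] [66, 67, 62] dv1 (fun t ht => hL t (by simp [ht])) perm_sv1
  have r2 := supervertex col sv2 8 [39, 41, 79] [82, 83, 78] dv2 (fun t ht => hL t (by simp [ht])) perm_sv2
  have r3 := supervertex col sv3 5 [27, 29, 55] [58, 59, 54] dv3 (fun t ht => hL t (by simp [ht])) perm_sv3
  have r4 := supervertex col sv4 7 [35, 37, 71] [74, 75, 70] dv4 (fun t ht => hL t (by simp [ht])) perm_sv4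
  have r5 := supervertex col sv5 9 [43, 45, 87] [90, 91, 86] dv5 (fun t ht => hL t (by simp [ht])) perm_sv5
  rw [q5] at r0
  rw [q0] at r1
  rw [q1] at r2
  rw [q2] at r3
  rw [q3] at r4
  rw [q4] at r5

  have a1 := (hg 1 (by omega))
  have a2 := (hg 2 (by omega))
  have a3 := (hg 3 (by omega))
  have e10 : c 0 1 = 1 := by decide +kernel
  have e11 : c 1 1 = 4 := by decide +kernel
  have e12 : c 2 1 = 5 := by decide +kernel
  have e20 : c 0 2 = 2 := by decide +kernel
  have e21 : c 1 2 = 6 := by decide +kernel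
  have e22 : c 2 2 = 7 := by decide +kernel
  have e30 : c 0 3 = 3 := by decide +kernel
  have e31 : c 1 3 = 8 := by decide +kernel
  have e32 : c 2 3 = 9 := by decide +kernel
  rw [e10, e11, e12] at a1
  rw [e20, e21, e22] at a2
  rw [e30, e31, e32] at a3
  have b1 : col 4 ^^^ col 5 ≠ 0 := by
    rw [Ne, Nat.xor_eq_zero_iff]; exact a1.2.2.2.2.2
  have b2 : col 6 ^^^ col 7 ≠ 0 := by
    rw [Ne, Nat.xor_eq_zero_iff]; exact a2.2.2.2.2.2
  have b3 : col 8 ^^^ col 9 ≠ 0 := by
    rw [Ne, Nat.xor_eq_zero_iff]; exact a3.2.2.2.2.2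
  have t4 := hc 4 (by omega) (by omega)
  have t5 := hc 5 (by omega) (by omega)
  have t6 := hc 6 (by omega) (by omega)
  have t7 := hc 7 (by omega) (by omega)
  have t8 := hc 8 (by omega) (by omega)
  have t9 := hc 9 (by omega) (by omega)
  refine petersen _ (X3_lt col 23 25 46 (hc _ (by omega) (by omega)) (hc _ (by omega) (by omega))
    (hc _ (by omega) (by omega))) _ (X3_lt col 31 33 63 (hc _ (by omega) (by omega))
    (hc _ (by omega) (by omega)) (hc _ (by omega) (by omega))) _ (X3_lt col 39 41 79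
    (hc _ (by omega) (by omega)) (hc _ (by omega) (by omega)) (hc _ (by omega) (by omega))) _
    (X3_lt col 27 29 55 (hc _ (by omega) (by omega)) (hc _ (by omega) (by omega))
    (hc _ (by omega) (by omega))) _ (X3_lt col 35 37 71 (hc _ (by omega) (by omega))
    (hc _ (by omega) (by omega)) (hc _ (by omega) (by omega))) _ (X3_lt col 43 45 87
    (hc _ (by omega) (by omega)) (hc _ (by omega) (by omega)) (hc _ (by omega) (by omega)))
    ⟨p0, p1, p2, p3, p4, p5, ?_, ?_, ?_, ?_, ?_, ?_, ?_, ?_, ?_⟩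
  · rw [← r0]; omega
  · rw [← r1]; omega
  · rw [← r2]; omega
  · rw [← r3]; omega
  · rw [← r4]; omega
  · rw [← r5]; omega
  · rw [← r0, ← r3]; exact b1
  · rw [← r1, ← r4]; exact b2
  · rw [← r2, ← r5]; exact b3

theorem not_colorable : ¬ G.lineGraph.Colorable 3 := by
  rintro ⟨C⟩
  classical
  let cs : Sym2 (Fin 190) → ℕ := fun e => if h : e ∈ G.edgeSet then (C ⟨e, h⟩).val + 1 else 0
  let tf : ℕ → Fin 190 := fun n => Fin.ofNat 190 n
  have htf : ∀ u : Fin 190, tf u.val = u := fun u => by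
    apply Fin.ext
    simp only [tf, Fin.ofNat]
    exact Nat.mod_eq_of_lt u.2
  apply no_col (fun k => cs s(tf (fs k), tf (sn k)))
  intro u hu
  have hu' : u < 190 := hu
  obtain ⟨-, -, n1, n2, n3, -, h7⟩ := vspec u hu
  have hcode : ∀ i (hi : i < 3), cs s(tf (fs (c i u)), tf (sn (c i u))) =
      cs s((⟨u, hu⟩ : Fin 190), nbr ⟨u, hu⟩ i hi) := by
    intro i hi
    obtain ⟨-, -, -, -, -, -, h⟩ := h7 i hi
    have hu2 : tf u = ⟨u, hu⟩ := htf ⟨u, hu⟩
    have hn2 : tf (g i u) = nbr ⟨u, hu⟩ i hi := htf (nbr ⟨u, hu⟩ i hi)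
    rcases h with ⟨ha, hb⟩ | ⟨ha, hb⟩
    · rw [ha, hb, hu2, hn2]
    · rw [ha, hb, hu2, hn2, Sym2.eq_swap]
  simp only [hcode 0 (by omega), hcode 1 (by omega), hcode 2 (by omega)]
  have hval : ∀ i (hi : i < 3), cs s((⟨u, hu⟩ : Fin 190), nbr ⟨u, hu⟩ i hi) =
      (C ⟨s((⟨u, hu⟩ : Fin 190), nbr ⟨u, hu⟩ i hi), adj_nbr ⟨u, hu⟩ i hi⟩).val + 1 := by
    intro i hi
    exact dif_pos _
  have hne : ∀ i j (hi : i < 3) (hj : j < 3), i ≠ j →
      cs s((⟨u, hu⟩ : Fin 190), nbr ⟨u, hu⟩ i hi) ≠ cs s((⟨u, hu⟩ : Fin 190), nbr ⟨u, hu⟩ j hj) := by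
    intro i j hi hj hij
    rw [hval i hi, hval j hj]
    intro h
    have hadj : G.lineGraph.Adj ⟨s((⟨u, hu⟩ : Fin 190), nbr ⟨u, hu⟩ i hi), adj_nbr ⟨u, hu⟩ i hi⟩
        ⟨s((⟨u, hu⟩ : Fin 190), nbr ⟨u, hu⟩ j hj), adj_nbr ⟨u, hu⟩ j hj⟩ := by
      rw [SimpleGraph.lineGraph_adj_iff_exists]
      refine ⟨?_, ⟨u, hu⟩, by simp, by simp⟩
      intro he
      have he2 := congrArg Subtype.val he
      simp only [Sym2.eq_iff, true_and] at he2
      have hgij : g i u = g j u := by
        rcases he2 with he2 | ⟨he2, he3⟩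
        · exact Fin.ext_iff.1 he2
        · have e1 := Fin.ext_iff.1 he2
          have e2 := Fin.ext_iff.1 he3
          simp only [nbr] at e1 e2
          omega
      exact hij (g_inj hu hi hj hgij)
    exact C.valid hadj (Fin.ext (by omega))
  have hr : ∀ i (hi : i < 3), cs s((⟨u, hu⟩ : Fin 190), nbr ⟨u, hu⟩ i hi) = 1 ∨
      cs s((⟨u, hu⟩ : Fin 190), nbr ⟨u, hu⟩ i hi) = 2 ∨
      cs s((⟨u, hu⟩ : Fin 190), nbr ⟨u, hu⟩ i hi) = 3 := by
    intro i hi
    rw [hval i hi]
    have := (C ⟨s((⟨u, hu⟩ : Fin 190), nbr ⟨u, hu⟩ i hi), adj_nbr ⟨u, hu⟩ i hi⟩).2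
    omega
  exact ⟨hr 0 _, hr 1 _, hr 2 _, hne 0 1 _ _ (by omega), hne 0 2 _ _ (by omega),
    hne 1 2 _ _ (by omega)⟩

/-! ### edge cuts -/

/-- the natural numbers with bitwise addition -/
def XN : Type := ℕ

instance : Zero XN := ⟨(0 : ℕ)⟩
instance : Add XN := ⟨fun a b => (Nat.xor a b : ℕ)⟩
instance : Neg XN := ⟨fun a => a⟩

instance : AddCommGroup XN where
  add_assoc a b c := Nat.xor_assoc a b c
  zero_add a := Nat.zero_xor a
  add_zero a := Nat.xor_zero a
  nsmul := nsmulRec
  zsmul := zsmulRec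
  neg_add_cancel a := Nat.xor_self a
  add_comm a b := Nat.xor_comm a b

theorem XN.add_self (a : XN) : a + a = 0 := Nat.xor_self a

/-- In a flow with values in a group of exponent two, the sum over the pairs leaving a set is zero. -/
theorem cut {n : ℕ} (f : Fin n → Fin n → XN) (hs : ∀ u v, f u v = f v u) (h0 : ∀ u, f u u = 0)
    (hf : ∀ u, ∑ w, f u w = 0) (A : Finset (Fin n)) :
    ∑ p ∈ A ×ˢ Aᶜ, f p.1 p.2 = 0 := by
  classical
  have h1 : ∑ p ∈ A ×ˢ (Finset.univ : Finset (Fin n)), f p.1 p.2 = 0 := by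
    rw [Finset.sum_product]
    exact Finset.sum_eq_zero (fun u _ => hf u)
  have h2 : A ×ˢ (Finset.univ : Finset (Fin n)) = A ×ˢ A ∪ A ×ˢ Aᶜ := by
    rw [← Finset.product_union, Finset.union_compl]
  have hd : Disjoint (A ×ˢ A) (A ×ˢ Aᶜ) := by
    rw [Finset.disjoint_left]
    intro p hp hp'
    rw [Finset.mem_product] at hp hp'
    exact (Finset.mem_compl.1 hp'.2) hp.2
  have h3 : ∑ p ∈ A ×ˢ A, f p.1 p.2 = 0 := by
    refine Finset.sum_involution (fun p _ => (p.2, p.1)) ?_ ?_ ?_ ?_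
    · intro p _
      simp only
      rw [hs p.2 p.1]
      exact XN.add_self _
    · intro p _ hne heq
      apply hne
      have : p.1 = p.2 := (congrArg Prod.snd heq)
      rw [this]
      exact h0 _
    · intro p hp
      rw [Finset.mem_product] at hp ⊢
      exact ⟨hp.2, hp.1⟩
    · intro p _
      rfl
  rw [h2, Finset.sum_union hd, h3, zero_add] at h1
  exact h1

/-- the labels as a function of two vertices -/
def ff (u v : Fin 190) : XN := fl u.val v.val

theorem ff_nbr (u : Fin 190) (i : ℕ) (hi : i < 3) : ff u (nbr u i hi) = label (c i u.val) :=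
  fl_g u.2 hi

theorem ff_zero {u v : Fin 190} (h : ¬ G.Adj u v) : ff u v = (0 : ℕ) := by
  unfold ff fl
  have h' : ∀ i < 3, v.val ≠ g i u.val := by
    intro i hi he
    exact h (adj_iff.2 ⟨i, hi, he⟩)
  rw [(beq_f _ _).2 (h' 0 (by omega)), (beq_f _ _).2 (h' 1 (by omega)),
    (beq_f _ _).2 (h' 2 (by omega))]
  rfl

theorem ff_symm (u v : Fin 190) : ff u v = ff v u := by
  by_cases h : G.Adj u v
  · obtain ⟨i, hi, hv⟩ := adj_iff.1 h
    have hv' : v = nbr u i hi := Fin.ext hv
    have h1 := ff_nbr u i hi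
    have h2 := ((vspec u u.2).2.2.2.2.2.2 i hi).2.2.2.2.2.1
    rw [hv', h1]
    exact h2.symm
  · rw [ff_zero h, ff_zero (fun h' => h h'.symm)]

theorem ff_self (u : Fin 190) : ff u u = 0 := ff_zero (fun h => G.loopless.irrefl u h)

theorem ff_sum (u : Fin 190) : ∑ w, ff u w = 0 := by
  classical
  obtain ⟨-, -, h1, h2, h3, h6, -⟩ := vspec u u.2
  have h12 : nbr u 0 (by omega) ≠ nbr u 1 (by omega) := fun h => h1 (Fin.ext_iff.1 h)
  have h13 : nbr u 0 (by omega) ≠ nbr u 2 (by omega) := fun h => h2 (Fin.ext_iff.1 h)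
  have h23 : nbr u 1 (by omega) ≠ nbr u 2 (by omega) := fun h => h3 (Fin.ext_iff.1 h)
  have hsub : ∑ w ∈ ({nbr u 0 (by omega), nbr u 1 (by omega), nbr u 2 (by omega)} :
      Finset (Fin 190)), ff u w = ∑ w, ff u w := by
    apply Finset.sum_subset (Finset.subset_univ _)
    intro w _ hw
    apply ff_zero
    intro hadj
    obtain ⟨i, hi, hv⟩ := adj_iff.1 hadj
    apply hw
    simp only [Finset.mem_insert, Finset.mem_singleton]
    interval_cases i
    · exact Or.inl (Fin.ext hv)
    · exact Or.inr (Or.inl (Fin.ext hv))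
    · exact Or.inr (Or.inr (Fin.ext hv))
  rw [← hsub, Finset.sum_insert (by simp [h12, h13]), Finset.sum_insert (by simp [h23]),
    Finset.sum_singleton, ff_nbr, ff_nbr, ff_nbr, ← add_assoc]
  exact h6

/-! #### facts on codes -/

theorem edge_get (k : ℕ) (hk : k < 285) :
    edges[k]? = some (fs (k + 1), sn (k + 1), label (k + 1)) := by
  have h := List.all_eq_true.1 edges_spec k (List.mem_range.2 hk)
  exact of_decide_eq_true h

theorem edge_getElem (k : ℕ) (hk : k < edges.length) :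
    edges[k] = (fs (k + 1), sn (k + 1), label (k + 1)) := by
  have h := edge_get k (by rw [← edges_length]; exact hk)
  rw [List.getElem?_eq_getElem hk] at h
  exact Option.some.inj h

theorem label_ne_zero {k : ℕ} (h1 : 1 ≤ k) (h2 : k ≤ 285) : label k ≠ 0 := by
  have hl : k - 1 < edges.length := by rw [edges_length]; omega
  have h := List.all_eq_true.1 edges_ne (edges[k - 1]) (List.getElem_mem hl)
  rw [edge_getElem _ hl, Bool.not_eq_true', beq_f] at h
  have : k - 1 + 1 = k := by omega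
  rwa [this] at h

theorem label_inj {j k : ℕ} (hj1 : 1 ≤ j) (hj2 : j ≤ 285) (hk1 : 1 ≤ k) (hk2 : k ≤ 285)
    (h : label j = label k) : j = k := by
  have hl1 : j - 1 < (edges.map (fun p => p.2.2)).length := by
    rw [List.length_map, edges_length]; omega
  have hl2 : k - 1 < (edges.map (fun p => p.2.2)).length := by
    rw [List.length_map, edges_length]; omega
  have hl3 : j - 1 < edges.length := by rw [edges_length]; omega
  have hl4 : k - 1 < edges.length := by rw [edges_length]; omega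
  have := (List.Nodup.getElem_inj_iff edges_nodup (hi := hl1) (hj := hl2)).1 (by
    rw [List.getElem_map, List.getElem_map, edge_getElem _ hl3, edge_getElem _ hl4]
    have e1 : j - 1 + 1 = j := by omega
    have e2 : k - 1 + 1 = k := by omega
    simp only [e1, e2, h])
  omega

theorem allPairs_pairwise : ∀ l : List (ℕ × ℕ × ℕ), allPairs l = true →
    l.Pairwise (fun p q => pairOK p q = true) := by
  intro l
  induction l with
  | nil => intro _; exact List.Pairwise.nil
  | cons p l ih =>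
    intro h
    unfold allPairs at h
    rw [Bool.and_eq_true] at h
    exact List.Pairwise.cons (fun q hq => List.all_eq_true.1 h.1 q hq) (ih h.2)

theorem label_hit {k : ℕ} (h1 : 1 ≤ k) (h2 : k ≤ 285) : miss (label k) = false := by
  have hl : k - 1 < edges.length := by rw [edges_length]; omega
  have h := List.all_eq_true.1 edges_hit (edges[k - 1]) (List.getElem_mem hl)
  rw [edge_getElem _ hl, Bool.not_eq_true'] at h
  have : k - 1 + 1 = k := by omega
  rwa [this] at h

theorem triple {i j k : ℕ} (hi1 : 1 ≤ i) (hij : i < j) (hj2 : j ≤ 285) (hk1 : 1 ≤ k)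
    (hk2 : k ≤ 285) (h : label k = Nat.xor (label i) (label j)) :
    share (fs i) (sn i) (fs j) (sn j) = true := by
  have hp := allPairs_pairwise _ allPairs_edges
  have hl1 : i - 1 < edges.length := by rw [edges_length]; omega
  have hl2 : j - 1 < edges.length := by rw [edges_length]; omega
  have h' := List.pairwise_iff_getElem.1 hp (i - 1) (j - 1) hl1 hl2 (by omega)
  rw [edge_getElem _ hl1, edge_getElem _ hl2] at h'
  have e1 : i - 1 + 1 = i := by omega
  have e2 : j - 1 + 1 = j := by omega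
  rw [e1, e2] at h'
  unfold pairOK at h'
  simp only [Bool.or_eq_true] at h'
  rcases h' with h' | h'
  · exact h'
  · rw [← h, label_hit hk1 hk2] at h'
    exact absurd h' (by simp)

theorem ends_mem {k : ℕ} (h1 : 1 ≤ k) (h2 : k ≤ 285) :
    k ∈ cd (fs k) ∧ k ∈ cd (sn k) ∧ fs k < 190 ∧ sn k < 190 := by
  have h := List.all_eq_true.1 echk_all (k - 1) (List.mem_range.2 (by omega))
  unfold echk at h
  have e : k - 1 + 1 = k := by omega
  rw [e] at h
  simp only [Bool.and_eq_true, List.contains_iff_mem, Nat.ble_eq] at h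
  exact ⟨h.1.1.1, h.1.1.2, by omega, by omega⟩

/-- Three different edges whose labels have sum zero are the edges at a vertex. -/
theorem triple_vertex {i j k : ℕ} (hi1 : 1 ≤ i) (hi2 : i ≤ 285) (hj1 : 1 ≤ j) (hj2 : j ≤ 285)
    (hk1 : 1 ≤ k) (hk2 : k ≤ 285) (hij : i ≠ j)
    (h : Nat.xor (Nat.xor (label i) (label j)) (label k) = 0) :
    ∃ z < 190, ∀ m < 3, c m z = i ∨ c m z = j ∨ c m z = k := by
  wlog hlt : i < j generalizing i j with H
  · obtain ⟨z, hz, hm⟩ := H hj1 hj2 hi1 hi2 hij.symm (by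
      have : Nat.xor (label j) (label i) = Nat.xor (label i) (label j) := Nat.xor_comm _ _
      rw [this]; exact h) (by omega)
    exact ⟨z, hz, fun m hm' => by rcases hm m hm' with h | h | h <;> simp [h]⟩
  have hk : label k = Nat.xor (label i) (label j) := (Nat.xor_eq_zero_iff.1 h).symm
  have hs := triple hi1 hlt hj2 hk1 hk2 hk
  unfold share at hs
  simp only [Bool.or_eq_true, beq_t] at hs
  obtain ⟨a1, a2, a3, a4⟩ := ends_mem hi1 hi2
  obtain ⟨b1, b2, b3, b4⟩ := ends_mem hj1 hj2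
  have hz : ∃ z < 190, i ∈ cd z ∧ j ∈ cd z := by
    rcases hs with ((hs | hs) | hs) | hs
    · exact ⟨fs i, a3, a1, by rw [hs]; exact b1⟩
    · exact ⟨fs i, a3, a1, by rw [hs]; exact b2⟩
    · exact ⟨sn i, a4, a2, by rw [hs]; exact b1⟩
    · exact ⟨sn i, a4, a2, by rw [hs]; exact b2⟩
  obtain ⟨z, hz, hzi, hzj⟩ := hz
  refine ⟨z, hz, ?_⟩
  obtain ⟨p, hp, hip⟩ := (mem_cd hz).1 hzi
  obtain ⟨q, hq, hjq⟩ := (mem_cd hz).1 hzj
  have hpq : p ≠ q := by rintro rfl; exact hij (hip.trans hjq.symm)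
  obtain ⟨-, -, -, -, -, h6, h7⟩ := vspec z hz
  have hx : ∀ x y w : ℕ, Nat.xor (Nat.xor x y) w = 0 → w = Nat.xor x y :=
    fun x y w hw => (Nat.xor_eq_zero_iff.1 hw).symm
  have hc := Nat.xor_comm
  have hthird : ∀ m < 3, m ≠ p → m ≠ q → c m z = k := by
    intro m hm hmp hmq
    apply label_inj (h7 m hm).2.2.2.1 (h7 m hm).2.2.2.2.1 hk1 hk2
    rw [hk, hip, hjq]
    have h6' : label (c 0 z) ^^^ label (c 1 z) ^^^ label (c 2 z) = 0 := h6
    show label (c m z) = label (c p z) ^^^ label (c q z)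
    have hA : label (c 2 z) = label (c 0 z) ^^^ label (c 1 z) := hx _ _ _ h6'
    have hB : label (c 1 z) = label (c 0 z) ^^^ label (c 2 z) := by
      rw [hA, ← Nat.xor_assoc, Nat.xor_self, Nat.zero_xor]
    have hC : label (c 0 z) = label (c 1 z) ^^^ label (c 2 z) := by
      rw [hA, Nat.xor_comm (label (c 0 z)), ← Nat.xor_assoc, Nat.xor_self, Nat.zero_xor]
    interval_cases m <;> interval_cases p <;> interval_cases q <;> first
      | exact absurd rfl hmp
      | exact absurd rfl hmq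
      | exact absurd rfl hpq
      | exact hA
      | exact hB
      | exact hC
      | (rw [Nat.xor_comm]; exact hA)
      | (rw [Nat.xor_comm]; exact hB)
      | (rw [Nat.xor_comm]; exact hC)
  intro m hm
  by_cases hmp : m = p
  · left; rw [hmp]; exact hip.symm
  · by_cases hmq : m = q
    · right; left; rw [hmq]; exact hjq.symm
    · right; right; exact hthird m hm hmp hmq

/-- the code of an edge -/
theorem exists_code {u v : Fin 190} (h : G.Adj u v) :
    ∃ k, 1 ≤ k ∧ k ≤ 285 ∧ ff u v = label k ∧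
      ((fs k = u.val ∧ sn k = v.val) ∨ (fs k = v.val ∧ sn k = u.val)) := by
  obtain ⟨i, hi, hv⟩ := adj_iff.1 h
  have hv' : v = nbr u i hi := Fin.ext hv
  obtain ⟨-, -, -, h1, h2, h3, h4⟩ := (vspec u u.2).2.2.2.2.2.2 i hi
  refine ⟨c i u.val, h1, h2, ?_, ?_⟩
  · rw [hv', ff_nbr]
  · rw [hv]; exact h4

/-- The edges leaving a set of vertices, if there are at most three of them, are none or the three
edges at a vertex. -/
theorem small_cut (A : Finset (Fin 190)) (P : Finset (Fin 190 × Fin 190))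
    (hP : ∀ p, p ∈ P ↔ p.1 ∈ A ∧ p.2 ∉ A ∧ G.Adj p.1 p.2) (hc : P.card ≤ 3) :
    P = ∅ ∨ ∃ z : Fin 190, (∀ w, G.Adj z w → (z, w) ∈ P ∨ (w, z) ∈ P) ∧
      ∀ p ∈ P, p.1 = z ∨ p.2 = z := by
  classical
  have hsum : ∑ p ∈ P, ff p.1 p.2 = 0 := by
    rw [← cut ff ff_symm ff_self ff_sum A]
    apply Finset.sum_subset
    · intro p hp
      rw [hP] at hp
      rw [Finset.mem_product, Finset.mem_compl]
      exact ⟨hp.1, hp.2.1⟩
    · intro p hp hp'
      rw [Finset.mem_product, Finset.mem_compl] at hp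
      exact ff_zero (fun h => hp' ((hP p).2 ⟨hp.1, hp.2, h⟩))
  -- different pairs have different codes
  have hcode : ∀ p ∈ P, ∃ k, 1 ≤ k ∧ k ≤ 285 ∧ ff p.1 p.2 = label k ∧
      ((fs k = p.1.val ∧ sn k = p.2.val) ∨ (fs k = p.2.val ∧ sn k = p.1.val)) :=
    fun p hp => exists_code ((hP p).1 hp).2.2
  have hinj : ∀ p ∈ P, ∀ q ∈ P, ∀ k,
      ((fs k = p.1.val ∧ sn k = p.2.val) ∨ (fs k = p.2.val ∧ sn k = p.1.val)) →
      ((fs k = q.1.val ∧ sn k = q.2.val) ∨ (fs k = q.2.val ∧ sn k = q.1.val)) → p = q := by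
    intro p hp q hq k h1 h2
    rw [hP] at hp hq
    rcases h1 with ⟨a, b⟩ | ⟨a, b⟩ <;> rcases h2 with ⟨a', b'⟩ | ⟨a', b'⟩
    · exact Prod.ext (Fin.ext (a.symm.trans a')) (Fin.ext (b.symm.trans b'))
    · have : p.1 = q.2 := Fin.ext (a.symm.trans a')
      exact absurd (this ▸ hp.1) hq.2.1
    · have : p.2 = q.1 := Fin.ext (a.symm.trans a')
      exact absurd (this.symm ▸ hq.1) hp.2.1
    · exact Prod.ext (Fin.ext (b.symm.trans b')) (Fin.ext (a.symm.trans a'))
  rcases Nat.lt_or_ge P.card 1 with h | h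
  · left; rw [← Finset.card_eq_zero]; omega
  right
  rcases Nat.lt_or_ge P.card 2 with h' | h'
  · exfalso
    obtain ⟨p, hp⟩ := Finset.card_eq_one.1 (show P.card = 1 by omega)
    obtain ⟨k, h1, h2, h3, -⟩ := hcode p (by rw [hp]; simp)
    rw [hp, Finset.sum_singleton, h3] at hsum
    exact label_ne_zero h1 h2 hsum
  rcases Nat.lt_or_ge P.card 3 with h'' | h''
  · exfalso
    obtain ⟨p, q, hpq, hp⟩ := Finset.card_eq_two.1 (show P.card = 2 by omega)
    have hpP : p ∈ P := by rw [hp]; simp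
    have hqP : q ∈ P := by rw [hp]; simp
    obtain ⟨k, h1, h2, h3, h4⟩ := hcode p hpP
    obtain ⟨l, m1, m2, m3, m4⟩ := hcode q hqP
    rw [hp, Finset.sum_pair hpq, h3, m3] at hsum
    have hkl : k = l := label_inj h1 h2 m1 m2 (Nat.xor_eq_zero_iff.1 hsum)
    subst hkl
    exact hpq (hinj p hpP q hqP k h4 m4)
  · obtain ⟨p, q, r, hpq, hpr, hqr, hp⟩ := Finset.card_eq_three.1 (show P.card = 3 by omega)
    have hpP : p ∈ P := by rw [hp]; simp
    have hqP : q ∈ P := by rw [hp]; simp
    have hrP : r ∈ P := by rw [hp]; simp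
    obtain ⟨i, i1, i2, i3, i4⟩ := hcode p hpP
    obtain ⟨j, j1, j2, j3, j4⟩ := hcode q hqP
    obtain ⟨k, k1, k2, k3, k4⟩ := hcode r hrP
    have hij : i ≠ j := by
      rintro rfl; exact hpq (hinj p hpP q hqP i i4 j4)
    rw [hp, Finset.sum_insert (by simp [hpq, hpr]), Finset.sum_pair hqr, i3, j3, k3,
      ← add_assoc] at hsum
    obtain ⟨z, hz, hm⟩ := triple_vertex i1 i2 j1 j2 k1 k2 hij hsum
    have hik : i ≠ k := by
      rintro rfl; exact hpr (hinj p hpP r hrP i i4 k4)
    have hjk : j ≠ k := by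
      rintro rfl; exact hqr (hinj q hqP r hrP j j4 k4)
    obtain ⟨-, -, n1, n2, n3, -, h7⟩ := vspec z hz
    -- the codes at `z` are different
    have hcinj : ∀ a < 3, ∀ b < 3, c a z = c b z → a = b := by
      intro a ha b hb hab
      have ga := (h7 a ha).2.2.2.2.2.2
      have gb := (h7 b hb).2.2.2.2.2.2
      have na := (h7 a ha).2.1
      have nb' := (h7 b hb).2.1
      rw [← hab] at gb
      apply g_inj hz ha hb
      rcases ga with ⟨x1, x2⟩ | ⟨x1, x2⟩ <;> rcases gb with ⟨y1, y2⟩ | ⟨y1, y2⟩ <;> omega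
    have hall : ∀ x, (x = i ∨ x = j ∨ x = k) → ∃ m < 3, c m z = x := by
      intro x hx
      have m0 := hm 0 (by omega)
      have m1 := hm 1 (by omega)
      have m2 := hm 2 (by omega)
      have c01 : c 0 z ≠ c 1 z := fun h => absurd (hcinj 0 (by omega) 1 (by omega) h) (by omega)
      have c02 : c 0 z ≠ c 2 z := fun h => absurd (hcinj 0 (by omega) 2 (by omega) h) (by omega)
      have c12 : c 1 z ≠ c 2 z := fun h => absurd (hcinj 1 (by omega) 2 (by omega) h) (by omega)
      by_contra hcon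
      push Not at hcon
      have d0 := hcon 0 (by omega)
      have d1 := hcon 1 (by omega)
      have d2 := hcon 2 (by omega)
      rcases hx with rfl | rfl | rfl <;> omega
    refine ⟨⟨z, hz⟩, ?_, ?_⟩
    · intro w hw
      obtain ⟨m, hm3, hwm⟩ := adj_iff.1 hw
      have e := (h7 m hm3).2.2.2.2.2.2
      have hwm' : w.val = g m z := hwm
      have fin : ∀ s ∈ P, ∀ x, c m z = x →
          ((fs x = s.1.val ∧ sn x = s.2.val) ∨ (fs x = s.2.val ∧ sn x = s.1.val)) →
          ((⟨z, hz⟩ : Fin 190), w) ∈ P ∨ (w, (⟨z, hz⟩ : Fin 190)) ∈ P := by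
        intro s hs x hx hx'
        rw [hx] at e
        have : (s.1 = ⟨z, hz⟩ ∧ s.2 = w) ∨ (s.1 = w ∧ s.2 = ⟨z, hz⟩) := by
          simp only [Fin.ext_iff]
          omega
        rcases this with ⟨t1, t2⟩ | ⟨t1, t2⟩
        · left; rw [← t1, ← t2]; exact hs
        · right; rw [← t1, ← t2]; exact hs
      rcases hm m hm3 with h | h | h
      · exact fin p hpP i h i4
      · exact fin q hqP j h j4
      · exact fin r hrP k h k4
    · intro s hs
      have fin : ∀ x, (x = i ∨ x = j ∨ x = k) →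
          ((fs x = s.1.val ∧ sn x = s.2.val) ∨ (fs x = s.2.val ∧ sn x = s.1.val)) →
          s.1 = ⟨z, hz⟩ ∨ s.2 = ⟨z, hz⟩ := by
        intro x hx hx'
        obtain ⟨m, hm3, hmx⟩ := hall x hx
        have e := (h7 m hm3).2.2.2.2.2.2
        rw [hmx] at e
        simp only [Fin.ext_iff]
        omega
      rw [hp] at hs
      simp only [Finset.mem_insert, Finset.mem_singleton] at hs
      rcases hs with rfl | rfl | rfl
      · exact fin i (by simp) i4
      · exact fin j (by simp) j4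
      · exact fin k (by simp) k4

/-- a set which is closed under adjacency in a connected graph -/
theorem closed_of_connected {V : Type*} {H : SimpleGraph V} (A : V → Prop)
    (hA : ∀ u v, H.Adj u v → A u → A v) {u v : V} (h : H.Reachable u v) (hu : A u) : A v := by
  obtain ⟨w⟩ := h
  induction w with
  | nil => exact hu
  | cons hadj _ ih => exact ih (hA _ _ hadj hu)

theorem exists_adj_of_isCycle {V : Type*} {H : SimpleGraph V} {x : V} {w : H.Walk x x}
    (hw : w.IsCycle) : ∃ y, H.Adj x y := by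
  cases w with
  | nil => exact absurd rfl hw.ne_nil
  | cons h _ => exact ⟨_, h⟩

theorem cyc4 (S : Finset (Sym2 (Fin 190))) (hS : S.card < 4) (x y : Fin 190)
    (w : (G.deleteEdges (S : Set (Sym2 (Fin 190)))).Walk x x)
    (w' : (G.deleteEdges (S : Set (Sym2 (Fin 190)))).Walk y y) (hw : w.IsCycle)
    (hw' : w'.IsCycle) : (G.deleteEdges (S : Set (Sym2 (Fin 190)))).Reachable x y := by
  classical
  by_contra hxy
  set H := G.deleteEdges (S : Set (Sym2 (Fin 190))) with hH
  have hadjH : ∀ u v, H.Adj u v ↔ G.Adj u v ∧ s(u, v) ∉ S := by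
    intro u v
    rw [hH, SimpleGraph.deleteEdges_adj]
    simp
  let A : Finset (Fin 190) := Finset.univ.filter (fun v => H.Reachable x v)
  have hA : ∀ v, v ∈ A ↔ H.Reachable x v := fun v => by simp [A]
  let P : Finset (Fin 190 × Fin 190) :=
    Finset.univ.filter (fun p => p.1 ∈ A ∧ p.2 ∉ A ∧ G.Adj p.1 p.2)
  have hP : ∀ p, p ∈ P ↔ p.1 ∈ A ∧ p.2 ∉ A ∧ G.Adj p.1 p.2 := fun p => by simp [P]
  have hPS : ∀ p ∈ P, s(p.1, p.2) ∈ S := by
    intro p hp
    rw [hP, hA, hA] at hp
    by_contra hn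
    exact hp.2.1 (hp.1.trans ((hadjH _ _).2 ⟨hp.2.2, hn⟩).reachable)
  have hcard : P.card ≤ 3 := by
    have : P.card ≤ S.card := by
      apply Finset.card_le_card_of_injOn (fun p : Fin 190 × Fin 190 => s(p.1, p.2))
        (fun p hp => hPS p hp)
      intro p hp q hq h
      have hp' := (hP p).1 hp
      have hq' := (hP q).1 hq
      simp only [Sym2.eq_iff] at h
      rcases h with h | h
      · exact Prod.ext h.1 h.2
      · exact absurd (h.1 ▸ hp'.1) hq'.2.1
    omega
  have hxA : x ∈ A := (hA x).2 (SimpleGraph.Reachable.refl x)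
  have hyA : y ∉ A := fun h => hxy ((hA y).1 h)
  rcases small_cut A P hP hcard with h | ⟨z, hz, hz'⟩
  · -- no edge leaves the component of `x`
    apply hyA
    refine closed_of_connected (H := G) (fun v => v ∈ A) ?_ (G_connected.preconnected x y) hxA
    intro u v huv hu
    by_contra hv
    have : (u, v) ∈ P := (hP _).2 ⟨hu, hv, huv⟩
    rw [h] at this
    simp at this
  · -- all edges at `z` are deleted
    have hzS : ∀ v, ¬ H.Adj z v := by
      intro v hv
      have h1 := (hadjH z v).1 hv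
      rcases hz v h1.1 with h | h
      · exact h1.2 (hPS _ h)
      · apply h1.2
        have := hPS _ h
        rwa [Sym2.eq_swap] at this
    by_cases hzA : z ∈ A
    · have hxz : x = z := by
        obtain ⟨w1⟩ := ((hA z).1 hzA).symm
        cases w1 with
        | nil => rfl
        | cons h _ => exact absurd h (hzS _)
      obtain ⟨v, hv⟩ := exists_adj_of_isCycle hw
      rw [hxz] at hv
      exact hzS v hv
    · have hyz : y ≠ z := by
        intro h
        obtain ⟨v, hv⟩ := exists_adj_of_isCycle hw'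
        rw [h] at hv
        exact hzS v hv
      have := closed_of_connected (H := G) (fun v => v ∉ A ∧ v ≠ z) (u := y) (v := x) ?_
        (G_connected.preconnected y x) ⟨hyA, hyz⟩
      · exact this.1 hxA
      · intro u v huv hu
        constructor
        · intro hv
          have : (v, u) ∈ P := (hP _).2 ⟨hv, hu.1, huv.symm⟩
          rcases hz' _ this with h | h
          · exact hzA (h ▸ hv)
          · exact hu.2 h
        · intro hv
          rcases hz u (hv ▸ huv.symm) with h | h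
          · exact hzA ((hP _).1 h).1
          · exact hu.1 ((hP _).1 h).1

end Pool.Agent.K4H80.TSnark
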