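import Mathlib

namespace Pool.Agent.K4H72.Til

/-- the lexicographic key (real part, imaginary part) -/
private noncomputable def key (z : ℂ) : ℝ ×ₗ ℝ := toLex (z.re, z.im)

private lemma key_le (z w : ℂ) : key z ≤ key w ↔ z.re < w.re ∨ z.re = w.re ∧ z.im ≤ w.im := by
  unfold key
  rw [Prod.Lex.toLex_le_toLex]

private lemma key_inj {z w : ℂ} (h : key z = key w) : z = w := by
  have h1 : (z.re, z.im) = (w.re, w.im) := toLex.injective h
  rw [Prod.mk.injEq] at h1
  exact Complex.ext h1.1 h1.2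

private lemma key_add (z w t : ℂ) : key (z + t) ≤ key (w + t) ↔ key z ≤ key w := by
  rw [key_le, key_le]
  simp

/-- T2: an equivariant choice (minimal real part, among these minimal imaginary part) -/
theorem choice : ∃ c : Set ℂ → ℂ, (∀ A : Set ℂ, A.Finite → A.Nonempty → c A ∈ A) ∧
    ∀ (A : Set ℂ) (t : ℂ), A.Finite → A.Nonempty → c ((fun z => z + t) '' A) = c A + t := by
  classical
  have hex : ∀ A : Set ℂ, A.Finite → A.Nonempty → ∃ a ∈ A, ∀ b ∈ A, key a ≤ key b :=
    fun A h1 h2 => Set.exists_min_image A key h1 h2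
  let c : Set ℂ → ℂ := fun A =>
    if h : ∃ a ∈ A, ∀ b ∈ A, key a ≤ key b then h.choose else 0
  have hc : ∀ A : Set ℂ, A.Finite → A.Nonempty → c A ∈ A ∧ ∀ b ∈ A, key (c A) ≤ key b := by
    intro A h1 h2
    have h := hex A h1 h2
    have h3 : c A = h.choose := dif_pos h
    rw [h3]
    exact h.choose_spec
  refine ⟨c, fun A h1 h2 => (hc A h1 h2).1, fun A t h1 h2 => ?_⟩
  obtain ⟨h3, h4⟩ := hc A h1 h2
  obtain ⟨h5, h6⟩ := hc ((fun z => z + t) '' A) (h1.image _) (h2.image _)
  apply key_inj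
  apply le_antisymm
  · exact h6 _ ⟨_, h3, rfl⟩
  · obtain ⟨b, hb, hbt⟩ := h5
    have hbt' : b + t = c ((fun z => z + t) '' A) := hbt
    rw [← hbt', key_add]
    exact h4 b hb

end Pool.Agent.K4H72.Til
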